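import Pool.Agent.H77.EA.Targets

/-!
# (CY) permutations with the same numbers of fixed points of powers
-/

open scoped Classical

namespace Pool.Agent.H43.EA

open AMc AMe

section

variable {A : Type} [Fintype A] [DecidableEq A]

/-- the length of the cycle of `a` -/
def len (σ : Equiv.Perm A) (a : A) : ℕ := if σ a = a then 1 else (σ.cycleOf a).support.card

theorem pow_iff (σ : Equiv.Perm A) (a : A) (k : ℕ) : (σ ^ k) a = a ↔ len σ a ∣ k := by
  unfold len
  split_ifs with h
  · simp only [one_dvd, iff_true]
    exact Equiv.Perm.pow_apply_eq_self_of_apply_eq_self h k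
  · have hc : (σ.cycleOf a).IsCycle := Equiv.Perm.isCycle_cycleOf σ h
    have hne : (σ.cycleOf a) a ≠ a := by rwa [Equiv.Perm.cycleOf_apply_self]
    rw [← hc.orderOf, orderOf_dvd_iff_pow_eq_one, hc.pow_eq_one_iff' hne,
      Equiv.Perm.cycleOf_pow_apply_self]

theorem len_pos (σ : Equiv.Perm A) (a : A) : 0 < len σ a := by
  unfold len
  split_ifs with h
  · exact one_pos
  · have hc : (σ.cycleOf a).IsCycle := Equiv.Perm.isCycle_cycleOf σ h
    have := hc.two_le_card_support
    omega

theorem cnt_cycleType (σ : Equiv.Perm A) (m : ℕ) (hm : 2 ≤ m) :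
    (Finset.univ.filter fun a => len σ a = m).card = σ.cycleType.count m * m := by
  have h1 : ∀ a ∈ Finset.univ.filter (fun a => len σ a = m),
      σ.cycleOf a ∈ σ.cycleFactorsFinset.filter (fun c => c.support.card = m) := by
    intro a ha
    have ha' : len σ a = m := (Finset.mem_filter.1 ha).2
    have hne : σ a ≠ a := by
      intro h
      unfold len at ha'
      rw [if_pos h] at ha'
      omega
    unfold len at ha'
    rw [if_neg hne] at ha'
    refine Finset.mem_filter.2 ⟨?_, ha'⟩
    rw [Equiv.Perm.cycleOf_mem_cycleFactorsFinset_iff, Equiv.Perm.mem_support]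
    exact hne
  rw [Finset.card_eq_sum_card_fiberwise h1]
  have h2 : ∀ c ∈ σ.cycleFactorsFinset.filter (fun c => c.support.card = m),
      ((Finset.univ.filter fun a => len σ a = m).filter fun a => σ.cycleOf a = c).card = m := by
    intro c hc
    obtain ⟨hc1, hc2⟩ := Finset.mem_filter.1 hc
    have : ((Finset.univ.filter fun a => len σ a = m).filter fun a => σ.cycleOf a = c) =
        c.support := by
      ext a
      rw [Finset.mem_filter, Finset.mem_filter]
      constructor
      · rintro ⟨⟨-, ha⟩, rfl⟩
        have hne : σ a ≠ a := by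
          intro h
          unfold len at ha
          rw [if_pos h] at ha
          omega
        rw [Equiv.Perm.mem_support, Equiv.Perm.cycleOf_apply_self]
        exact hne
      · intro ha
        have hca := Equiv.Perm.cycle_is_cycleOf ha hc1
        have hne : σ a ≠ a := by
          rw [hca, Equiv.Perm.mem_support, Equiv.Perm.cycleOf_apply_self] at ha
          exact ha
        refine ⟨⟨Finset.mem_univ _, ?_⟩, hca.symm⟩
        unfold len
        rw [if_neg hne, ← hca, hc2]
    rw [this, hc2]
  rw [Finset.sum_congr rfl h2, Finset.sum_const, smul_eq_mul]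
  congr 1
  rw [Equiv.Perm.cycleType_def, Multiset.count_map, Finset.card_def, Finset.filter_val]
  congr 1
  refine Multiset.filter_congr fun c _ => ?_
  simp only [Function.comp_apply]
  exact eq_comm

theorem conj {α β : Equiv.Perm A}
    (h : ∀ k : ℕ, {a | (α ^ k) a = a}.ncard = {a | (β ^ k) a = a}.ncard) : IsConj α β := by
  have hF : ∀ (σ : Equiv.Perm A) (k : ℕ), {a | (σ ^ k) a = a}.ncard =
      (Finset.univ.filter fun a => len σ a ∣ k).card := by
    intro σ k
    rw [← Set.ncard_coe_finset]
    congr 1
    ext a
    simp [pow_iff]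
  have hS : ∀ (σ : Equiv.Perm A) (m : ℕ), 0 < m → {a | (σ ^ m) a = a}.ncard =
      (Finset.univ.filter fun a => len σ a = m).card +
        ∑ d ∈ m.properDivisors, (Finset.univ.filter fun a => len σ a = d).card := by
    intro σ m hm
    rw [hF]
    have h1 : (Finset.univ.filter fun a => len σ a ∣ m) =
        (Finset.univ.filter fun a => len σ a = m) ∪
        (Finset.univ.filter fun a => len σ a ∈ m.properDivisors) := by
      ext a
      simp only [Finset.mem_filter, Finset.mem_univ, true_and, Finset.mem_union,
        Nat.mem_properDivisors]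
      constructor
      · intro hd
        rcases (Nat.le_of_dvd hm hd).lt_or_eq with hlt | heq
        · exact Or.inr ⟨hd, hlt⟩
        · exact Or.inl heq
      · rintro (heq | ⟨hd, -⟩)
        · exact heq ▸ dvd_rfl
        · exact hd
    rw [h1, Finset.card_union_of_disjoint]
    · congr 1
      have hmap : ∀ a ∈ Finset.univ.filter (fun a => len σ a ∈ m.properDivisors),
          len σ a ∈ m.properDivisors := fun a ha => (Finset.mem_filter.1 ha).2
      rw [Finset.card_eq_sum_card_fiberwise hmap]
      refine Finset.sum_congr rfl fun d hd => ?_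
      congr 1
      ext a
      simp only [Finset.mem_filter, Finset.mem_univ, true_and]
      constructor
      · rintro ⟨-, h⟩
        exact h
      · intro h
        exact ⟨h ▸ hd, h⟩
    · rw [Finset.disjoint_left]
      intro a ha hb
      have e1 := (Finset.mem_filter.1 ha).2
      have e2 := (Nat.mem_properDivisors.1 (Finset.mem_filter.1 hb).2).2
      omega
  have hC : ∀ m : ℕ, 0 < m → (Finset.univ.filter fun a => len α a = m).card =
      (Finset.univ.filter fun a => len β a = m).card := by
    intro m
    induction m using Nat.strong_induction_on with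
    | _ m ih =>
      intro hm
      have e1 := hS α m hm
      have e2 := hS β m hm
      have e3 : ∑ d ∈ m.properDivisors, (Finset.univ.filter fun a => len α a = d).card =
          ∑ d ∈ m.properDivisors, (Finset.univ.filter fun a => len β a = d).card := by
        refine Finset.sum_congr rfl fun d hd => ?_
        have hd' := Nat.mem_properDivisors.1 hd
        exact ih d hd'.2 (Nat.pos_of_dvd_of_pos hd'.1 hm)
      rw [h m, e2, e3] at e1
      omega
  rw [Equiv.Perm.isConj_iff_cycleType_eq]
  ext m
  rcases le_or_gt 2 m with hm | hm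
  · have e1 := cnt_cycleType α m hm
    have e2 := cnt_cycleType β m hm
    rw [hC m (by omega), e2] at e1
    exact (Nat.eq_of_mul_eq_mul_right (by omega) e1).symm
  · rw [Multiset.count_eq_zero_of_notMem, Multiset.count_eq_zero_of_notMem]
    · intro hmem
      have := Equiv.Perm.two_le_of_mem_cycleType hmem
      omega
    · intro hmem
      have := Equiv.Perm.two_le_of_mem_cycleType hmem
      omega

end

theorem cy : T_CY := by
  intro A B _ _ α β h
  have := Fintype.ofFinite A
  have hc : Nat.card A = Nat.card B := by
    have := h 0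
    simpa [Set.ncard_univ] using this
  obtain ⟨e⟩ := Finite.card_eq.1 hc
  let β' : Equiv.Perm A := (e.trans β).trans e.symm
  have hβ : ∀ (k : ℕ) (a : A), e ((β' ^ k) a) = (β ^ k) (e a) := by
    intro k
    induction k with
    | zero => intro a; rfl
    | succ k ih =>
      intro a
      rw [pow_succ, pow_succ, Equiv.Perm.mul_apply, Equiv.Perm.mul_apply, ih]
      congr 1
      show e (e.symm (β (e a))) = _
      simp
  have hn : ∀ k : ℕ, {a | (α ^ k) a = a}.ncard = {a | (β' ^ k) a = a}.ncard := by
    intro k
    rw [h k, ← Set.ncard_image_of_injective {a | (β' ^ k) a = a} e.injective]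
    congr 1
    ext b
    simp only [Set.mem_ofPred_eq, Set.mem_image]
    constructor
    · intro hb
      refine ⟨e.symm b, e.injective ?_, by simp⟩
      rw [hβ, Equiv.apply_symm_apply, hb]
    · rintro ⟨a, ha, rfl⟩
      rw [← hβ, ha]
  obtain ⟨c, hc⟩ := isConj_iff.1 (conj hn)
  refine ⟨c.trans e, fun a => ?_⟩
  have h1 : (c * α) a = (β' * c) a := by rw [← hc]; simp
  have h2 : c (α a) = e.symm (β (e (c a))) := h1
  show e (c (α a)) = β (e (c a))
  rw [h2]
  simp

end Pool.Agent.H43.EA
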