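import Pool.Agent.H77.EA.Targets
import Pool.Agent.H3.AM.A1

/-!
# (EX) extensions of invariant characters are invariant
-/

open scoped Classical ComplexConjugate

namespace Pool.Agent.H43.EA

open AMc AMe

section

variable {K : Type} [Group K] [Fintype K]

theorem irr_of_char {n m : ℕ} (ρ : Representation ℂ K (Fin n → ℂ))
    (σ : Representation ℂ K (Fin m → ℂ)) (hσ : σ.IsIrreducible)
    (h : ρ.character = σ.character) : ρ.IsIrreducible := by
  refine finrank_eq_one_irreducible ρ ?_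
  have h1 := t_A1 K σ.character σ.character ⟨m, σ, hσ, rfl⟩ ⟨m, σ, hσ, rfl⟩
  rw [if_pos rfl] at h1
  have h2 := inner_eq ρ ρ
  rw [h, h1] at h2
  have hne : (Nat.card K : ℂ) ≠ 0 := by exact_mod_cast Nat.card_pos.ne'
  have h3 : (Module.finrank ℂ (Representation.IntertwiningMap ρ ρ) : ℂ) = 1 :=
    mul_right_cancel₀ hne (by rw [← h2, one_mul])
  exact_mod_cast h3

theorem equiv_of_char {n m : ℕ} (ρ : Representation ℂ K (Fin n → ℂ))
    (σ : Representation ℂ K (Fin m → ℂ)) (hρ : ρ.IsIrreducible) (hσ : σ.IsIrreducible)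
    (h : ρ.character = σ.character) : Nonempty (Representation.Equiv σ ρ) := by
  have hne : (Nat.card K : ℂ) ≠ 0 := by exact_mod_cast Nat.card_pos.ne'
  have : Invertible (Nat.card K : ℂ) := invertibleOfNonzero hne
  have h1 := Representation.char_orthonormal ρ σ
  have h2 := Representation.char_orthonormal σ σ
  rw [if_pos ⟨Representation.Equiv.refl σ⟩] at h2
  rw [h, h2] at h1
  by_contra hcon
  rw [if_neg hcon] at h1
  exact one_ne_zero h1

end

theorem ex (h0 : T_P0) : T_EX := by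
  intro q hq Γ _ _ Q _ s X K γ m hPI hK hX χ hχ θ hθ hres hinv
  obtain ⟨hKX, hnorm, -, hgen, -, -⟩ := h0 q hq Γ Q s X K (γ ^ m) hPI
  obtain ⟨ψ, ⟨n, ρ, hρ, rfl⟩, rfl⟩ := hχ
  obtain ⟨φ, ⟨d, σ, hσ, rfl⟩, rfl⟩ := hθ
  have hn := irr_pos ρ hρ
  -- the restriction
  let ρK : Representation ℂ K (Fin n → ℂ) := ρ.comp (Subgroup.inclusion hKX)
  have hρK : ∀ k : K, ρK k = ρ ⟨k, hKX k.2⟩ := fun k => rfl
  have hcK : ρK.character = σ.character := by
    funext k
    have h1 := hres k k.2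
    unfold ext0 at h1
    rw [dif_pos (hKX k.2), dif_pos k.2] at h1
    exact h1
  -- the conjugate
  have hγ : ∀ k : K, γ * k * γ⁻¹ ∈ K := fun k => (hK k).2 k.2
  let c : K →* K :=
    { toFun := fun k => ⟨γ * k * γ⁻¹, hγ k⟩
      map_one' := by ext; simp
      map_mul' := by intro a b; ext; simp }
  let ρc : Representation ℂ K (Fin n → ℂ) := ρK.comp c
  have hcc : ρc.character = σ.character := by
    funext k
    have h1 : ρc.character k = ρK.character (c k) := rfl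
    have h2 := congrFun hinv k
    unfold cj ext0 at h2
    rw [dif_pos (hγ k), dif_pos k.2] at h2
    rw [h1, hcK]
    exact h2
  have hirr := irr_of_char ρK σ hσ hcK
  have hirrc := irr_of_char ρc σ hσ hcc
  obtain ⟨T⟩ := equiv_of_char ρc ρK hirrc hirr (hcc.trans hcK.symm)
  -- units of the ring of endomorphisms
  let U : (Module.End ℂ (Fin n → ℂ))ˣ :=
    ⟨T.toLinearEquiv.toLinearMap, T.toLinearEquiv.symm.toLinearMap,
      LinearMap.ext fun v => T.toLinearEquiv.apply_symm_apply v,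
      LinearMap.ext fun v => T.toLinearEquiv.symm_apply_apply v⟩
  have hU : ∀ k : K, (U : Module.End ℂ (Fin n → ℂ)) * ρ ⟨k, hKX k.2⟩ =
      ρ ⟨γ * k * γ⁻¹, hKX (hγ k)⟩ * (U : Module.End ℂ (Fin n → ℂ)) := by
    intro k
    exact T.isIntertwining' k
  have hpow : ∀ j : ℕ, ∀ k ∈ K, γ ^ j * k * (γ ^ j)⁻¹ ∈ K := by
    intro j
    induction j with
    | zero => intro k hk; simpa using hk
    | succ j ih =>
      intro k hk
      have h1 := hγ ⟨_, ih k hk⟩
      have h2 : γ * (γ ^ j * k * (γ ^ j)⁻¹) * γ⁻¹ = γ ^ (j + 1) * k * (γ ^ (j + 1))⁻¹ := by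
        rw [pow_succ' γ j]
        group
      rw [← h2]
      exact h1
  have hUj : ∀ j : ℕ, ∀ (k : Γ) (hk : k ∈ K), (U : Module.End ℂ (Fin n → ℂ)) ^ j *
      ρ ⟨k, hKX hk⟩ = ρ ⟨γ ^ j * k * (γ ^ j)⁻¹, hKX (hpow j k hk)⟩ *
        (U : Module.End ℂ (Fin n → ℂ)) ^ j := by
    intro j
    induction j with
    | zero =>
      intro k hk
      rw [pow_zero, one_mul, mul_one]
      congr 1
      ext
      simp
    | succ j ih =>
      intro k hk
      rw [pow_succ' (U : Module.End ℂ (Fin n → ℂ)) j, mul_assoc, ih k hk, ← mul_assoc,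
        hU ⟨_, hpow j k hk⟩, mul_assoc]
      congr 2
      ext
      show γ * (γ ^ j * k * (γ ^ j)⁻¹) * γ⁻¹ = γ ^ (j + 1) * k * (γ ^ (j + 1))⁻¹
      rw [pow_succ' γ j]
      group
  -- the scalar
  let t : X := ⟨γ ^ m, hPI.mem⟩
  let S : Module.End ℂ (Fin n → ℂ) := ρ t⁻¹ * (U : Module.End ℂ (Fin n → ℂ)) ^ m
  have hS : ∀ (k : K) (v : Fin n → ℂ), S (ρK k v) = ρK k (S v) := by
    intro k v
    have h1 : S * ρK k = ρK k * S := by
      show ρ t⁻¹ * (U : Module.End ℂ (Fin n → ℂ)) ^ m * ρ ⟨k, hKX k.2⟩ =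
        ρ ⟨k, hKX k.2⟩ * (ρ t⁻¹ * (U : Module.End ℂ (Fin n → ℂ)) ^ m)
      rw [mul_assoc, hUj m k k.2, ← mul_assoc, ← mul_assoc, ← map_mul, ← map_mul]
      congr 2
      ext
      show (γ ^ m)⁻¹ * (γ ^ m * k * (γ ^ m)⁻¹) = k * (γ ^ m)⁻¹
      group
    exact congrArg (fun f : Module.End ℂ (Fin n → ℂ) => f v) h1
  have hirr' : ρK.IsIrreducible := hirr
  obtain ⟨a, ha⟩ :=
    (Representation.IsIrreducible.algebraMap_intertwiningMap_bijective_of_isAlgClosed
      (k := ℂ) (ρ := ρK)).2 (LinearMap.intertwiningMap_of_isIntertwiningMap ρK ρK S hS)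
  have haS : S = a • (1 : Module.End ℂ (Fin n → ℂ)) := by
    refine LinearMap.ext fun v => ?_
    exact (congrArg (fun φ : Representation.IntertwiningMap ρK ρK => φ.toLinearMap v) ha).symm
  have hUm : (U : Module.End ℂ (Fin n → ℂ)) ^ m = a • ρ t := by
    have h1 : ρ t * S = (U : Module.End ℂ (Fin n → ℂ)) ^ m := by
      show ρ t * (ρ t⁻¹ * (U : Module.End ℂ (Fin n → ℂ)) ^ m) = _
      rw [← mul_assoc, ← map_mul, mul_inv_cancel, map_one, one_mul]
    rw [← h1, haS, mul_smul_comm, mul_one]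
  have ha0 : a ≠ 0 := by
    rintro rfl
    rw [zero_smul] at hUm
    have h1 : IsUnit ((U : Module.End ℂ (Fin n → ℂ)) ^ m) := ⟨U ^ m, by simp⟩
    rw [hUm] at h1
    have : Nontrivial (Module.End ℂ (Fin n → ℂ)) := by
      have : Nontrivial (Fin n → ℂ) := by
        have : Nonempty (Fin n) := ⟨⟨0, hn⟩⟩
        infer_instance
      infer_instance
    exact not_isUnit_zero h1
  have hcomm : Commute (U : Module.End ℂ (Fin n → ℂ)) (ρ t) := by
    have h1 : Commute (U : Module.End ℂ (Fin n → ℂ)) ((U : Module.End ℂ (Fin n → ℂ)) ^ m) :=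
      Commute.self_pow _ _
    rw [hUm] at h1
    have h2 := h1.smul_right (a⁻¹)
    rwa [smul_smul, inv_mul_cancel₀ ha0, one_smul] at h2
  -- conclusion
  have key : ∀ x : X, ∃ y : X, (y : Γ) = γ * x * γ⁻¹ ∧
      (U : Module.End ℂ (Fin n → ℂ)) * ρ x = ρ y * (U : Module.End ℂ (Fin n → ℂ)) := by
    intro x
    refine ⟨⟨γ * x * γ⁻¹, (hX x).2 x.2⟩, rfl, ?_⟩
    obtain ⟨e, -, k, hk, hx⟩ := hgen x x.2
    have hx' : x = t ^ e * ⟨k, hKX hk⟩ := by
      ext
      rw [hx]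
      rfl
    have hy : (⟨γ * x * γ⁻¹, (hX x).2 x.2⟩ : X) = t ^ e * ⟨γ * k * γ⁻¹, hKX (hγ ⟨k, hk⟩)⟩ := by
      ext
      show γ * x * γ⁻¹ = (γ ^ m) ^ e * (γ * k * γ⁻¹)
      rw [hx]
      have hc : γ * (γ ^ m) ^ e = (γ ^ m) ^ e * γ :=
        ((Commute.refl γ).pow_right m).pow_right e
      rw [← mul_assoc γ, hc]
      group
    rw [hy, hx', map_mul, map_mul, map_pow, ← mul_assoc, (hcomm.pow_right e).eq, mul_assoc,
      hU ⟨k, hk⟩, ← mul_assoc]
  funext g
  unfold cj ext0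
  by_cases hg : g ∈ X
  · rw [dif_pos ((hX g).2 hg), dif_pos hg]
    obtain ⟨y, hy, hy2⟩ := key ⟨g, hg⟩
    have e1 : (⟨γ * g * γ⁻¹, (hX g).2 hg⟩ : X) = y := by ext; exact hy.symm
    rw [e1]
    show LinearMap.trace ℂ _ (ρ y) = LinearMap.trace ℂ _ (ρ ⟨g, hg⟩)
    have h3 : ρ y = (U : Module.End ℂ (Fin n → ℂ)) * ρ ⟨g, hg⟩ *
        ((U⁻¹ : (Module.End ℂ (Fin n → ℂ))ˣ) : Module.End ℂ (Fin n → ℂ)) := by
      rw [hy2, mul_assoc, Units.mul_inv, mul_one]
    rw [h3, LinearMap.trace_mul_comm, ← mul_assoc, Units.inv_mul, one_mul]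
  · rw [dif_neg (fun h => hg ((hX g).1 h)), dif_neg hg]

end Pool.Agent.H43.EA
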