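import Pool.Agent.H77.EA.Targets

/-!
# (OB) Burnside
-/

open scoped Classical

namespace Pool.Agent.H43.EA

open AMc AMe

theorem orb {H A : Type} [Group H] [Fintype H] [Finite A] (α : H →* Equiv.Perm A) :
    Nat.card (Quot (fun a a' : A => ∃ h, α h a = a')) * Fintype.card H =
      ∑ h : H, {a | α h a = a}.ncard := by
  have := Fintype.ofFinite A
  let _ : MulAction H A := MulAction.compHom A α
  have h1 := MulAction.sum_card_fixedBy_eq_card_orbits_mul_card_group H A
  have h2 : Nat.card (Quot (fun a a' : A => ∃ h, α h a = a')) =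
      Fintype.card (Quotient (MulAction.orbitRel H A)) := by
    rw [← Nat.card_eq_fintype_card]
    refine Nat.card_congr (Quot.congrRight fun a a' => ?_)
    constructor
    · rintro ⟨h, rfl⟩
      refine ⟨h⁻¹, ?_⟩
      show h⁻¹ • (h • a) = a
      exact inv_smul_smul h a
    · rintro ⟨h, hh⟩
      refine ⟨h⁻¹, ?_⟩
      show h⁻¹ • a = a'
      rw [← hh]
      exact inv_smul_smul h a'
  rw [h2, ← h1]
  refine Finset.sum_congr rfl fun h _ => ?_
  rw [← Nat.card_coe_set_eq, Nat.card_eq_fintype_card]
  rfl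

theorem ob : T_OB := by
  intro H A B _ _ _ _ α β h
  have := Fintype.ofFinite H
  have h1 := orb α
  have h2 := orb β
  have h3 : ∑ x : H, {a | α x a = a}.ncard = ∑ x : H, {b | β x b = b}.ncard :=
    Finset.sum_congr rfl fun x _ => h x
  rw [← h1, ← h2] at h3
  exact Nat.eq_of_mul_eq_mul_right Fintype.card_pos h3

end Pool.Agent.H43.EA
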